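import Mathlib
import Pool.Agent.H99.NM.Entropy2

/-!
# Uncountably many quadratic polynomials with a neutral measure of large entropy on its support

For every `ε > 0`, in every right neighbourhood of `-2` there are uncountably many real `c` such
that `z ^ 2 + c` has a neutral measure `μ` on whose support the entropy is at least `log 2 - ε`.
The support contains a Cantor set, invariant under the second iterate, on which the second iterate
is conjugate to the full one-sided two-shift. In particular the support contains at least `2 ^ m`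
points of period dividing `2 m` for every `m`, and the map is not minimal on the support.

`IsRationalMap`, `IsNeutral`, `topEntropy`, `IsMinimalOn` are the definitions of the library
(`W748/NM/Defs.lean`).
-/

set_option autoImplicit false

open Filter Topology Set MeasureTheory

namespace Pool.Agent.Results.MP_ec389a_an.UncountablyManyParameters

open Pool.Agent.W748.NM Pool.Agent.W748.NM.Sph Pool.Agent.H99.NM

/-- The second iterate of `f` restricted to some subset of `K` is conjugate to the full one-sided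
shift on two symbols: `e` is a homeomorphism of `{0, 1} ^ ℕ` onto a compact subset of `K` (a
continuous injection of a compact space) and turns the shift into `f ∘ f`. -/
def HasFullTwoShift (f : OnePoint ℂ → OnePoint ℂ) (K : Set (OnePoint ℂ)) : Prop :=
  ∃ e : (ℕ → Bool) → OnePoint ℂ, Continuous e ∧ Function.Injective e ∧ (∀ w, e w ∈ K) ∧
    ∀ w, f (f (e w)) = e (fun n => w (n + 1))

variable {c : ℝ} {μ : ProbabilityMeasure II}

theorem full_shift [MeasurableSpace (OnePoint ℂ)] [BorelSpace (OnePoint ℂ)] (h : Gen c μ) : HasFullTwoShift (F c) (mm μ).support := by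
  obtain ⟨e, e1, e2, e3, e4⟩ := exists_coding h
  refine ⟨fun w => R (e w), R_cont.comp e1, R_inj.comp e2, fun w => ?_, fun w => ?_⟩
  · obtain ⟨x, hx, ex⟩ := e3 w
    rw [mm_support]
    exact ⟨x, hx, by change R (x : ℝ) = R (e w); rw [ex]⟩
  · have h1 : F c (F c (R (e w))) = R (it c 2 (e w)) := F_iter_R c 2 (e w)
    rw [h1, e4 w]

theorem shift_iter {f : OnePoint ℂ → OnePoint ℂ} {e : (ℕ → Bool) → OnePoint ℂ}
    (h : ∀ w, f (f (e w)) = e (fun n => w (n + 1))) (m : ℕ) (w : ℕ → Bool) :
    f^[2 * m] (e w) = e (fun n => w (n + m)) := by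
  induction m generalizing w with
  | zero => rfl
  | succ m ih =>
    have e1 : 2 * (m + 1) = 2 * m + 2 := by ring
    rw [e1, Function.iterate_add_apply]
    have e2 : f^[2] (e w) = e (fun n => w (n + 1)) := h w
    rw [e2, ih]
    rfl

/-- a full two-shift has `2 ^ m` points fixed by its `m`-th iterate -/
theorem periodic_count {f : OnePoint ℂ → OnePoint ℂ} {K : Set (OnePoint ℂ)}
    (h : HasFullTwoShift f K) {m : ℕ} (hm : 1 ≤ m) :
    ((2 ^ m : ℕ) : ℕ∞) ≤ {z | z ∈ K ∧ f^[2 * m] z = z}.encard := by
  obtain ⟨e, -, e2, e3, e4⟩ := h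
  let g : (Fin m → Bool) → OnePoint ℂ := fun v => e fun n => v ⟨n % m, Nat.mod_lt _ hm⟩
  have hg : Function.Injective g := by
    intro v v' hv
    have h1 := e2 hv
    funext i
    have h2 := congrFun h1 i
    simpa [Nat.mod_eq_of_lt i.2] using h2
  have hsub : Set.range g ⊆ {z | z ∈ K ∧ f^[2 * m] z = z} := by
    rintro _ ⟨v, rfl⟩
    refine ⟨e3 _, ?_⟩
    change f^[2 * m] (e fun n => v ⟨n % m, Nat.mod_lt _ hm⟩) =
      e fun n => v ⟨n % m, Nat.mod_lt _ hm⟩
    rw [shift_iter e4]
    congr 1
    funext n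
    simp
  have hcard : (Set.range g).encard = ((2 ^ m : ℕ) : ℕ∞) := by
    rw [← Set.image_univ, hg.encard_image, Set.encard_univ]
    simp
  rw [← hcard]
  exact Set.encard_le_encard hsub

/-- **Main theorem.** -/
theorem result [MeasurableSpace (OnePoint ℂ)] [BorelSpace (OnePoint ℂ)] (ε δ : ℝ) (hε : 0 < ε)
    (hδ : 0 < δ) :
    ¬ {c : ℝ | -2 < c ∧ c < -2 + δ ∧
      ∃ (f : OnePoint ℂ → OnePoint ℂ) (μ : Measure (OnePoint ℂ)),
        (∀ z : ℂ, f (z : OnePoint ℂ) = ((z ^ 2 + (c : ℂ) : ℂ) : OnePoint ℂ)) ∧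
        IsRationalMap f 2 ∧ IsNeutral f μ ∧
        ((Real.log 2 - ε : ℝ) : EReal) ≤ topEntropy f μ.support ∧
        HasFullTwoShift f μ.support ∧
        (∀ m : ℕ, 1 ≤ m → ((2 ^ m : ℕ) : ℕ∞) ≤ {z | z ∈ μ.support ∧ f^[2 * m] z = z}.encard) ∧
        ¬ IsMinimalOn f μ.support}.Countable := by
  have hlog : 0 < Real.log 2 := Real.log_pos (by norm_num)
  obtain ⟨k, hk⟩ := exists_nat_gt (Real.log 2 / ε)
  rw [div_lt_iff₀ hε] at hk
  refine genB_uncountable k hδ fun c h1 h2 μ h hV => ?_
  refine ⟨h1, h2, F c, mm μ, F_some c, F_rational c, mm_neutral h, ?_, full_shift h,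
    fun m hm => periodic_count (full_shift h) hm, mm_not_minimal h⟩
  rw [mm_support]
  refine le_trans ?_ (entropy_geB h hV)
  rw [EReal.coe_le_coe_iff, le_div_iff₀ (by positivity)]
  nlinarith

end Pool.Agent.Results.MP_ec389a_an.UncountablyManyParameters
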